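import Pool.Agent.H70.RZT.S
import Pool.Agent.H40.T1.ZVAL

/-!
# RZT, row ABVN: every completion of `E` is above a prime of `K`
-/

set_option autoImplicit false

namespace Pool.RZT

open Polynomial Matrix NumberField IsDedekindDomain Pool.HYP Pool.TOW Pool.AVS Pool.T1 Pool.NF

namespace Abvn

theorem mem_of_integral {A L : Type} [CommRing A] [Field L] (O' : ValuationSubring L)
    (φ : A →+* L) (hφ : ∀ a, φ a ∈ O') (y : L) (hy : φ.IsIntegralElem y) : y ∈ O' := by
  obtain ⟨ψ, hψ⟩ : ∃ ψ : A →+* O', ∀ a, ((ψ a : O') : L) = φ a :=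
    ⟨φ.codRestrict O' hφ, fun a => rfl⟩
  obtain ⟨p, hp, hpy⟩ := hy
  have h1 : IsIntegral O' y := by
    refine ⟨p.map ψ, hp.map _, ?_⟩
    rw [eval₂_map]
    have h2 : (algebraMap O' L).comp ψ = φ := by
      ext a
      exact hψ a
    rw [h2]
    exact hpy
  obtain ⟨z, hz⟩ := (IsIntegrallyClosed.isIntegral_iff (R := O') (K := L)).1 h1
  rw [← hz]
  exact z.2

end Abvn

open Abvn in
/-- **ABVN.** -/
theorem abvn : ABVNStmt := by
  intro K _ _ E _ _ hfin L _ O' ι hC
  have hint : ∀ a : 𝓞 K, ι (algebraMap K E (algebraMap (𝓞 K) K a)) ∈ O' := by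
    intro a
    refine mem_of_integral O' (Int.castRingHom L) (fun n => ?_) _ ?_
    · exact intCast_mem O' n
    · have h1 : IsIntegral ℤ (algebraMap (𝓞 K) K a) := a.2
      obtain ⟨p, hp, hpa⟩ := h1
      refine ⟨p, hp, ?_⟩
      have h2 := congrArg (fun x => ι (algebraMap K E x)) hpa
      simp only [map_zero] at h2
      rw [← h2]
      change _ = (ι.comp (algebraMap K E)) (eval₂ (algebraMap ℤ K) _ p)
      rw [hom_eval₂]
      congr 1
      exact RingHom.ext_int _ _
  have hne : O'.comap (ι.comp (algebraMap K E)) ≠ ⊤ := by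
    intro htop
    have hK : ∀ x : K, ι (algebraMap K E x) ∈ O' := by
      intro x
      have h1 : x ∈ O'.comap (ι.comp (algebraMap K E)) := by
        rw [htop]
        exact ValuationSubring.mem_top x
      exact h1
    have hE : ∀ y : E, ι y ∈ O' := by
      intro y
      refine mem_of_integral O' (ι.comp (algebraMap K E)) hK _ ?_
      have h1 : IsIntegral K y := Algebra.IsIntegral.isIntegral y
      obtain ⟨p, hp, hpa⟩ := h1
      refine ⟨p, hp, ?_⟩
      rw [← hom_eval₂, hpa, map_zero]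
    have := hC.dvr
    obtain ⟨ϖ, hϖ⟩ := IsDiscreteValuationRing.exists_irreducible O'
    have h0 : (ϖ : L) ≠ 0 := by
      intro h
      exact hϖ.ne_zero (Subtype.ext h)
    obtain ⟨x, hx⟩ := hC.dense ((ϖ : L)⁻¹) 1 one_ne_zero
    rw [div_one] at hx
    have h1 : (ϖ : L)⁻¹ ∈ O' := by
      have h2 := O'.add_mem _ _ hx (hE x)
      rwa [sub_add_cancel] at h2
    apply hϖ.not_isUnit
    exact IsUnit.of_mul_eq_one ⟨(ϖ : L)⁻¹, h1⟩ (Subtype.ext (mul_inv_cancel₀ h0))
  obtain ⟨P, hP⟩ := (zval (𝓞 K) K).1 _ hne (fun a => hint a)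
  exact ⟨P, hC, hP⟩

end Pool.RZT
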